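import Pool.Agent.Helper37.OF.St

/-!
# Project OF, module SEC: sections
-/

set_option autoImplicit false

namespace Pool.Agent.Helper40.OF

open Pool.Agent.Helper37.OF Monoid Pool.Agent.Helper4.FS

universe u v w x

theorem hSEC : StSEC.{u, x} := by
  intro A Q _ _ π
  obtain ⟨τ, h1, h2⟩ : ∃ τ : Q → Q, (∀ q, q * (τ q)⁻¹ ∈ π.range) ∧
      ∀ p q, q * p⁻¹ ∈ π.range → τ p = τ q := by
    refine ⟨fun q => Quotient.out (Quotient.mk (QuotientGroup.rightRel π.range) q), ?_, ?_⟩
    · intro q
      have h := Quotient.mk_out (s := QuotientGroup.rightRel π.range) q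
      exact QuotientGroup.rightRel_apply.mp h
    · intro p q h
      have h' : Quotient.mk (QuotientGroup.rightRel π.range) p
          = Quotient.mk (QuotientGroup.rightRel π.range) q :=
        Quotient.sound (QuotientGroup.rightRel_apply.mpr h)
      exact congrArg Quotient.out h'
  choose s hs using h1
  refine ⟨s, ?_, τ 1, ?_⟩
  · intro a q
    rw [hs, hs]
    have h : τ q = τ (π a * q) := h2 q (π a * q) (by
      rw [mul_assoc, mul_inv_cancel, mul_one]
      exact ⟨a, rfl⟩)
    rw [← h, mul_assoc]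
  · rw [hs]
    have h : τ (τ 1) = τ 1 := h2 (τ 1) 1 ⟨s 1, hs 1⟩
    rw [h, mul_inv_cancel]

end Pool.Agent.Helper40.OF
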